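import Pool.Agent.N606.FP.Fun

/-!
# MP_db9079_lc: closed groups and periodic sets definable in F_p((t))

Write `K` for the field `F_p((t))`, with the valuation or with any other unary predicate `P`.
The starting results say: either true arithmetic is reducible to the theory of `(K, P)`, or all
finite sets in a definable family have at most `N` elements. Here this is transferred, by duality,
from discrete to cocompact objects.

The constant coefficient `z_0` of `z` is definable in `K` with the parameter `t`, and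
`(x, y) ↦ (x_1 y_1 + ... + x_n y_n)_0` is a perfect pairing of the locally compact group `K^n` with
itself. So the annihilator of a definable set is definable, and so is the closed subgroup which it
generates, the annihilator of the annihilator. The annihilator of a closed cocompact group is
discrete; if it is finite then the group has finite index. A closed set which is invariant under a
cocompact group has a closed cocompact stabilizer.

Hence, unless true arithmetic is reducible to the theory of the valued field `F_p((t))`: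
the closed group generated by a definable subset of `K^n` has a bounded finite index if it is
cocompact, it has a bounded number of elements if it is discrete, each closed definable subset of `K^n` which
is periodic (invariant under some cocompact group, for instance under a lattice) is a union of a
bounded number of cosets of a closed group of finite index, and each continuous definable periodic
function from `K^n` to `K^m` has a bounded number of values.
-/

set_option autoImplicit false

namespace Pool.Agent.Results.MP_db9079_lc.ClosedSubgroups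

open Pool.Agent.Y924.EL
open Pool.Agent.Results.MP_db9079_lc.UniformFiniteness
open Pool.Agent.Results.MP_db9079_lc.LocallyFiniteValues
open Pool.Agent.N606.FP

variable (p : ℕ) [Fact p.Prime]

/-- the closed subgroup of `K^n` generated by the set `X`; `Near p b a x` says that `x` is in
`a + (b F_p[[t]])^n` -/
def Gen {n : ℕ} (X : Set (Fin n → LaurentSeries (ZMod p))) :
    AddSubgroup (Fin n → LaurentSeries (ZMod p)) where
  carrier := {x | ∀ b : LaurentSeries (ZMod p), b ≠ 0 →
    ∃ a ∈ AddSubgroup.closure X, Near p b a x}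
  zero_mem' := fun _ _ => ⟨0, AddSubgroup.zero_mem _, near_refl _ _⟩
  add_mem' := fun {x y} hx hy => (mem_Cl_iff _ _).1
    ((Cl _).add_mem ((mem_Cl_iff _ x).2 hx) ((mem_Cl_iff _ y).2 hy))
  neg_mem' := fun {x} hx => (mem_Cl_iff _ _).1 ((Cl _).neg_mem ((mem_Cl_iff _ x).2 hx))

/-- the group is discrete -/
def Discrete {n : ℕ} (A : AddSubgroup (Fin n → LaurentSeries (ZMod p))) : Prop :=
  ∃ b : LaurentSeries (ZMod p), b ≠ 0 ∧ ∀ a ∈ A, Near p b 0 a → a = 0

/-- some translates by elements of the group of one ball `(c F_p[[t]])^n` cover `K^n` -/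
def Cocompact {n : ℕ} (A : AddSubgroup (Fin n → LaurentSeries (ZMod p))) : Prop :=
  ∃ c : LaurentSeries (ZMod p), ∀ x, ∃ a ∈ A, Near p c a x

/-- the set is closed -/
def IsClosedSet {n : ℕ} (X : Set (Fin n → LaurentSeries (ZMod p))) : Prop :=
  ∀ x ∉ X, ∃ b : LaurentSeries (ZMod p), b ≠ 0 ∧ ∀ x', Near p b x x' → x' ∉ X

/-- the set is invariant under the translations by the elements of the group -/
def Periodic {V : Type} [AddGroup V] (X : Set V) (A : AddSubgroup V) : Prop :=
  ∀ x ∈ X, ∀ a ∈ A, x + a ∈ X

/-- uniform bounds for the definable closed groups which are discrete or cocompact, for the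
definable closed periodic sets, and for the definable periodic functions with closed fibres -/
def GroupTame (P : Set (LaurentSeries (ZMod p))) : Prop :=
  (∀ (φ : Fm) (n : ℕ), ∃ N : ℕ, ∀ v : ℕ → LaurentSeries (ZMod p),
    (Discrete p (Gen p (DSet p P φ n v)) →
      (Gen p (DSet p P φ n v) : Set (Fin n → LaurentSeries (ZMod p))).Finite ∧
      (Gen p (DSet p P φ n v) : Set (Fin n → LaurentSeries (ZMod p))).ncard ≤ N) ∧
    (Cocompact p (Gen p (DSet p P φ n v)) →
      (Gen p (DSet p P φ n v)).index ≠ 0 ∧ (Gen p (DSet p P φ n v)).index ≤ N) ∧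
    (IsClosedSet p (DSet p P φ n v) → (∃ B, Cocompact p B ∧ Periodic (DSet p P φ n v) B) →
      ∃ A : AddSubgroup (Fin n → LaurentSeries (ZMod p)),
        IsClosedSet p (A : Set (Fin n → LaurentSeries (ZMod p))) ∧
        A.index ≠ 0 ∧ A.index ≤ N ∧ Periodic (DSet p P φ n v) A)) ∧
  ∀ (φ : Fm) (n m : ℕ), ∃ N : ℕ, ∀ v : ℕ → LaurentSeries (ZMod p),
    (∀ x y y', DRel p P φ n m v x y → DRel p P φ n m v x y' → y = y') →
    (∀ y, IsClosedSet p {x | DRel p P φ n m v x y}) →
    (∃ B, Cocompact p B ∧ ∀ y, Periodic {x | DRel p P φ n m v x y} B) →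
    (Img p (DRel p P φ n m v)).Finite ∧ (Img p (DRel p P φ n m v)).ncard ≤ N

variable {p}

theorem gen_eq {n : ℕ} (X : Set (Fin n → LaurentSeries (ZMod p))) : Gen p X = Gn X := by
  ext x
  exact (mem_Cl_iff _ _).symm

theorem groupTame (P : Set (LaurentSeries (ZMod p))) (hP : LFTame p P) : GroupTame p P := by
  refine ⟨fun φ n => ?_, fun φ n m => ?_⟩
  swap
  · obtain ⟨N, hN⟩ := periodic_fun P hP φ n m
    refine ⟨N, fun v h1 h2 => ?_⟩
    rintro ⟨B, ⟨c, hc⟩, hB⟩
    exact hN v h1 h2 ⟨B, c, hc, fun x y hx b hb => hB y x hx b hb⟩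
  obtain ⟨N₁, h1⟩ := gtame P hP φ n
  obtain ⟨N₂, h2⟩ := periodic P hP φ n
  refine ⟨N₁ + N₂, fun v => ⟨fun h => ?_, fun h => ?_, fun hX => ?_⟩⟩
  · rw [gen_eq] at h ⊢
    have h3 := (h1 v).1 h
    exact ⟨h3.1, h3.2.trans (Nat.le_add_right _ _)⟩
  · rw [gen_eq] at h ⊢
    have h3 := (h1 v).2 h
    exact ⟨h3.1, h3.2.trans (Nat.le_add_right _ _)⟩
  · rintro ⟨B, ⟨c, hc⟩, hB⟩
    obtain ⟨h3, h4, h5⟩ := h2 v hX ⟨B, c, hc, hB⟩
    refine ⟨St (DSet p P φ n v), ?_, h4, h5.trans (Nat.le_add_left _ _),
      fun x hx a ha => ha x hx⟩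
    intro x hx
    by_contra hcon
    push Not at hcon
    refine hx ?_
    rw [← h3]
    refine (mem_Cl_iff _ _).2 fun b hb => ?_
    obtain ⟨x', h6, h7⟩ := hcon b hb
    refine ⟨x', h7, fun i => ?_⟩
    obtain ⟨z, hz, h8⟩ := h6 i
    refine ⟨-z, ?_, ?_⟩
    · obtain ⟨s, rfl⟩ := hz
      exact ⟨-s, map_neg _ _⟩
    · rw [← h8]
      ring

theorem cocompact_of_index {n : ℕ} (A : AddSubgroup (Fin n → LaurentSeries (ZMod p)))
    (h : A.index ≠ 0) : Cocompact p A := by
  have hA : A.FiniteIndex := ⟨h⟩
  have hf1 : Finite ((Fin n → LaurentSeries (ZMod p)) ⧸ A) :=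
    AddSubgroup.finite_quotient_of_finiteIndex
  choose N hN using fun q : (Fin n → LaurentSeries (ZMod p)) ⧸ A => exists_low' q.out
  obtain ⟨M, hM⟩ := (Set.finite_range N).bddBelow
  refine ⟨HahnSeries.single (M + 1) (1 : ZMod p), fun x => ?_⟩
  set o : Fin n → LaurentSeries (ZMod p) :=
    (QuotientAddGroup.mk x : (Fin n → LaurentSeries (ZMod p)) ⧸ A).out with ho
  have h3 : x - o ∈ A := by
    have h4 : (QuotientAddGroup.mk o : (Fin n → LaurentSeries (ZMod p)) ⧸ A) =
        QuotientAddGroup.mk x := by
      rw [ho]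
      exact Quotient.out_eq' _
    have h5 := QuotientAddGroup.eq.1 h4
    rwa [add_comm, ← sub_eq_add_neg] at h5
  refine ⟨x - o, h3, (near_single' _ _ _).2 fun i k hk => ?_⟩
  have h6 : (o i).coeff k = 0 := hN _ i k (by
    have := hM ⟨(QuotientAddGroup.mk x : (Fin n → LaurentSeries (ZMod p)) ⧸ A), rfl⟩
    omega)
  rw [Pi.sub_apply, HahnSeries.coeff_sub, h6, sub_zero]

theorem result :
    -- the closed subgroup generated by a definable set is definable
    (∀ (φ : Fm) (n : ℕ), ∃ ψ : Fm, ∀ (P : Set (LaurentSeries (ZMod p)))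
      (v : ℕ → LaurentSeries (ZMod p)), ∃ w : ℕ → LaurentSeries (ZMod p),
        DSet p P ψ n w = (Gen p (DSet p P φ n v) : Set (Fin n → LaurentSeries (ZMod p)))) ∧
    -- the field with any unary predicate (for `P = ValRing p`, the valued field): true arithmetic
    -- is reducible to the theory, or there are uniform bounds for groups, periodic sets and
    -- periodic functions; there are such bounds if the theory is recursively enumerable
    (∀ P : Set (LaurentSeries (ZMod p)), (GroupTame p P ∨ Arith p P) ∧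
      (REPred (InTh p P) → GroupTame p P)) ∧
    -- uniform finiteness is equivalent to uniform bounds for the indices of closed groups
    (∀ P : Set (LaurentSeries (ZMod p)), Tame p P ↔ ∀ φ : Fm, ∃ N : ℕ,
      ∀ v : ℕ → LaurentSeries (ZMod p), (Gen p (DSet p P φ 1 v)).index ≠ 0 →
        (Gen p (DSet p P φ 1 v)).index ≤ N) ∧
    -- expansions by a closed periodic set: no new definable sets, or undecidable
    (∀ (X : Set (LaurentSeries (ZMod p))) (B : AddSubgroup (LaurentSeries (ZMod p))),
      ClosedSet p X → (∃ c : LaurentSeries (ZMod p), ∀ x, ∃ a ∈ B, ∃ z ∈ ValRing p, a + c * z = x) →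
      Periodic X B →
      ((∃ A : AddSubgroup (LaurentSeries (ZMod p)), A.index ≠ 0 ∧ Periodic X A) →
        ∃ (φ : Fm) (v : ℕ → LaurentSeries (ZMod p)), ∀ P : Set (LaurentSeries (ZMod p)),
          Dfn p P φ v = X) ∧
      ((¬ ∃ A : AddSubgroup (LaurentSeries (ZMod p)), A.index ≠ 0 ∧ Periodic X A) →
        Arith p X ∧ ¬ REPred (InTh p X))) ∧
    -- for example the set of the series whose part of positive exponents is in a closed set `C`
    -- of series with positive exponents only, if `C` is not open
    (∀ C : Set (LaurentSeries (ZMod p)), ClosedSet p C →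
      (∀ c ∈ C, ∀ k : ℤ, k ≤ 0 → c.coeff k = 0) →
      (¬ ∀ x ∈ C, ∃ b : LaurentSeries (ZMod p), b ≠ 0 ∧
        ∀ y, (∀ k : ℤ, k ≤ 0 → y.coeff k = 0) → (∃ z ∈ ValRing p, x + b * z = y) → y ∈ C) →
      Arith p {x | ∃ c ∈ C, ∀ k : ℤ, 0 < k → x.coeff k = c.coeff k} ∧
      ¬ REPred (InTh p {x | ∃ c ∈ C, ∀ k : ℤ, 0 < k → x.coeff k = c.coeff k})) := by
  refine ⟨fun φ n => ⟨annF p n (annF p n φ), fun P v =>
    ⟨parA n (tt p) (parA n (tt p) v), ?_⟩⟩, fun P => ⟨?_, fun h => ?_⟩, fun P => ⟨fun h φ => ?_,
    fun h => ?_⟩, fun X B hX => ?_, fun C hC h0 hno => posIn C hC h0 hno⟩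
  · rw [gen_eq]
    exact DS_gen P φ n v
  · exact (dichotomy p P).imp_left fun h => groupTame P (lftame_of_tame P h)
  · exact groupTame P (lftame_of_tame P (tame p P h))
  · obtain ⟨N, hN⟩ := (groupTame P (lftame_of_tame P h)).1 φ 1
    refine ⟨N, fun v hv => ((hN v).2.1 ?_).2⟩
    exact cocompact_of_index _ hv
  · refine uniform_of_index P fun φ => ?_
    obtain ⟨N, hN⟩ := h φ
    refine ⟨N, fun v => ?_⟩
    rw [← gen_eq]
    by_cases h0 : (Gen p (DSet p P φ 1 v)).index = 0
    · rw [h0]
      exact Nat.zero_le _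
    · exact hN v h0
  · rintro ⟨c, hc⟩ hXB
    exact expansion_periodic X hX B c hc hXB

end Pool.Agent.Results.MP_db9079_lc.ClosedSubgroups
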