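import Pool.Agent.N102.EC.Sys
import Pool.Agent.N37.EC.Dvr
import Pool.Agent.N765.EC.QUOT
import Pool.Agent.N102.FL.LFin
import Pool.Agent.N169.FL.WT
import Pool.Agent.N433.FL.Pt
import Pool.Agent.N301.FL.Sys
import Pool.Agent.N595.FL.Cut

/-!
MP_db9079_lc: hypothesis (R4), on which the decidability of the existential `L_val(t)`-theory of
`F_p((t))` depends (Anscombe, Dittmann, Fehm), for function fields of systems of linear relations with
Frobenius levels, in arbitrary dimension.

(R4) says that every large field `k` is existentially closed in every extension field `K` which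
admits a valuation, trivial on `k`, with the residue field `k`. It is known for perfect `k` (Kuhlmann)
and, for example, for `k` of characteristic `p > 0` which is not perfect and `K` of transcendence
degree at most `3` (Cossart, Piltant).

Here `k` is an arbitrary large field of characteristic `p > 0` (for example `F_p((t))`), and `F` is a
perfect subfield of `k` (for example `F_p`). Let `k ⊆ E ⊆ K` be fields, and suppose that `K` is
generated over `E` by elements `z 1, ..., z s` with arbitrary linear relations over `F` between `1`
and the powers `z t ^ (p ^ e t)` (`e t ≥ 0` arbitrary), and by elements `x 1, ..., x n` with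
equations `G i (v, z, x) = 0` (`v b` elements of `E`) which are schön in the directions of the `x j`,
relative to the torus of the variables of `(v, z)`, and that there are no other relations
(`dimension`). If `K` has a valuation ring `V` with the residue field `k`, and `V ∩ E` is log
uniformizable (for example: `E = k`; or `E / k` of transcendence degree one; or, by Cossart and
Piltant, `E / k` of transcendence degree at most `3`), then `k` is existentially closed in `K`.
There is no condition on the dimension, on the rank and the defect of `V` and on the degree of
imperfection of `k`.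

Example: the function fields of the irreducible components, with `x j ≠ 0`, of the hypersurfaces
`∑ j, c j * (v j * x j ^ (d j)) ^ (q j) = b` over `k`, where `c j, b ∈ F`, the `v j` are arbitrary
nonzero elements of `k`, the `q j` are arbitrary powers of `p` and the `d j` are prime to `p`; and the
same for systems of such equations with arbitrary coefficients `c i j ∈ F`. So every system of
polynomial equations over `k` which has a solution in such a field `K` has a solution in `k`.

The proof: the equations of `K` are nondegenerate along `V` (helper files of
MP_b525bf_ag.FrobeniusLevels and MP_5b7a2c_ag.FrobeniusLevelsAscent), so the given solution is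
contained in a local ring with the fraction field `K` which is regular and dominated by `V` (after
the multiplication with a denominator `D`); it has the residue field `k`, and there is a
homomorphism over `k` of this ring to `k[[T]]` which does not kill `D` (reduction of the
dimension by sections); this gives a solution in `k((T))`.
-/

set_option autoImplicit false

universe u

namespace Pool.Agent.Results.MP_db9079_lc.LargeFieldsFrobeniusLevels

open Pool.Agent.W418.LU2 Pool.Agent.N102.FL Pool.Agent.TH214.SD

/-- The field `k` is existentially closed in its extension field `K`: every finite system of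
polynomial equations over `k` which has a solution in `K` has a solution in `k`. (Inequations
`g ≠ 0` can be written as equations `w * g = 1`.) -/
def ExistentiallyClosed (k K : Type u) [Field k] [Field K] [Algebra k K] : Prop :=
  ∀ (n : ℕ) (S : Set (MvPolynomial (Fin n) k)), S.Finite → ∀ a : Fin n → K,
    (∀ f ∈ S, MvPolynomial.aeval a f = 0) → ∃ b : Fin n → k, ∀ f ∈ S, MvPolynomial.aeval b f = 0

/-- The field `k` is large: it is existentially closed in `k((T))`. -/
def IsLarge (k : Type u) [Field k] : Prop := ExistentiallyClosed k (LaurentSeries k)

/-- The local ring of `Spec B` at the centre of the valuation ring `V`: the fractions of elements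
of `B` whose denominators are units of `V`. -/
def centreRing {F : Type u} [Field F] (V : ValuationSubring F) (B : Subring F) : Subring F where
  carrier := {x | ∃ a ∈ B, ∃ b ∈ B, b ≠ 0 ∧ b⁻¹ ∈ V ∧ x = a * b⁻¹}
  mul_mem' := (lo V.toSubring B).mul_mem'
  one_mem' := (lo V.toSubring B).one_mem'
  add_mem' := (lo V.toSubring B).add_mem'
  zero_mem' := (lo V.toSubring B).zero_mem'
  neg_mem' := (lo V.toSubring B).neg_mem'

/-- The chart `A[I / f]` of the blowing-up of `Spec A` in the ideal `I`. -/
def blowUpChart {F : Type u} [Field F] (A : Subring F) (I : Ideal A) (f : A) : Subring F :=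
  Subring.closure ((A : Set F) ∪ {z | ∃ a ∈ I, z = (a : F) / (f : F)})

/-- `P` is a regular local ring and the zero set of `J` is a divisor with strict normal
crossings: the radical of `J` is generated by the product of some of the elements of a regular
system of parameters. -/
def RegularPair (P : Type u) [CommRing P] (J : Ideal P) : Prop :=
  ∃ (_ : IsRegularLocalRing P) (n : ℕ) (x : Fin n → P) (s : Finset (Fin n)),
    Ideal.span (Set.range x) = IsLocalRing.maximalIdeal P ∧ ringKrullDim P = n ∧
      J.radical = Ideal.span {∏ i ∈ s, x i}

/-- The blowing-up of `X = Spec A` in `V(I)` is a log desingularization of `(X, V(D))` along the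
valuation ring `V`. Here `f ∈ I` generates `I V`, the centre of the lift of the valuation lies in
the chart `Spec A[I / f]`, and the ideal `D I` defines the preimage of `V(D) ∪ V(I)`. -/
def IsLogDesingularization {F : Type u} [Field F] (V : ValuationSubring F) (A : Subring F)
    (D I : Ideal A) : Prop :=
  ∃ f ∈ I, f ≠ 0 ∧ (∀ a ∈ I, (a : F) / (f : F) ∈ V) ∧
    RegularPair (centreRing V (blowUpChart A I f))
      (Ideal.span {z | ∃ a ∈ D * I, (z : F) = (a : F)})

/-- The valuation ring `V` is log uniformizable on `Spec A`. (The blowings-up in the ideals
`I₀ * I₁` are cofinal: the blowing-up in `I₀ * I₁` factors through the blowing-up in `I₀`.) -/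
def IsLogUniformizable {F : Type u} [Field F] (V : ValuationSubring F) (A : Subring F) : Prop :=
  ∀ D I₀ : Ideal A, D ≠ ⊥ → I₀ ≠ ⊥ →
    ∃ I₁ : Ideal A, I₁ ≠ ⊥ ∧ IsLogDesingularization V A D (I₀ * I₁)

/-- Let `k` be a large field, let `F` be a perfect subfield of `k` of characteristic `p > 0`, let
`k ⊆ E ⊆ K` be fields, and let `V` be a valuation ring of `K` with the residue field `k` (`hV`). Let
`R` be a noetherian subring of `E` with fraction field `E` such that `k ⊆ R ⊆ V`, which is a Dedekind
ring (or a field), or such that `V ∩ E` is log uniformizable on `Spec R`. Let `K` be generated over `E`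
by the coordinates `z t` and `x j` of a relative schön system with coefficients in `F` over a system
of linear relations over `F` between powers `z t ^ (p ^ e t)` (`IsLeveledSystemOver`). Then `k` is
existentially closed in `K`. -/
theorem result {p : ℕ} [Fact p.Prime] {F k E K : Type u} [Field F] [PerfectField F] [CharP F p]
    [Field k] [Field E] [Field K] [Algebra F k] [Algebra F E] [Algebra F K] [Algebra k E]
    [Algebra k K] [Algebra E K] [IsScalarTower F k K] [IsScalarTower F E K] [IsScalarTower k E K]
    (hk : IsLarge k) (V : ValuationSubring K) (hkV : ∀ a : k, algebraMap k K a ∈ V)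
    (hV : ∀ a ∈ V, ∃ c : k, V.valuation (a - algebraMap k K c) < 1)
    (R : Subring E) [IsNoetherianRing R]
    (hfr : ∀ w : E, ∃ a ∈ R, ∃ b ∈ R, b ≠ 0 ∧ w = a * b⁻¹)
    (hkR : ∀ a : k, algebraMap k E a ∈ R) (hRV : ∀ a ∈ R, algebraMap E K a ∈ V)
    (hR : IsDedekindDomain R ∨ IsLogUniformizable (V.comap (algebraMap E K)) R)
    {h s n q c : ℕ} (v : Fin h → E) (e : Fin s → ℕ) (z : Fin s → K) (x : Fin n → K)
    (G : Fin q → (Fin (h + s) ⊕ Fin n → ℤ) →₀ F) (hG : IsLeveledSystemOver p c v e z x G) :
    ExistentiallyClosed k K := by
  have hRW : R ≤ (V.comap (algebraMap E K)).toSubring := fun a ha => hRV a ha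
  have hLU : LogUnif (V.comap (algebraMap E K)) R := by
    rcases hR with hR | hR
    · exact logUnif_of_dedekind _ R hRW hfr
    · exact hR
  have hsys : S_SYS.{u} := Pool.Agent.N301.FL.t_sys Pool.Agent.N169.FL.WT.t_wt
    Pool.Agent.N433.FL.t_pt
  have hstg : S_STG.{u} := Pool.Agent.N102.FL.STG.t_stg Pool.Agent.N595.FL.t_cut
  exact Pool.Agent.N102.EC.ec_core Pool.Agent.N37.EC.t_dvr Pool.Agent.N765.EC.t_quot hsys hstg hk
    hG V (fun a => by
      rw [IsScalarTower.algebraMap_apply F k K]
      exact hkV _) hV R hfr hkR hRV hLU

end Pool.Agent.Results.MP_db9079_lc.LargeFieldsFrobeniusLevels
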