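import Pool.Agent.N102.CP.Asm
import Pool.Agent.N102.CP.Pl
import Pool.Agent.N37.EC.Dvr
import Pool.Agent.N286.CP.FIX
import Pool.Agent.N717.CP.ALG
import Pool.Agent.N765.EC.QUOT
import Pool.Agent.N98.RW.Ver

/-!
MP_db9079_lc: `K`-rational points on models of function fields of bounded degree over
`K = F_q((t))`, and points of closures over `F_q[[t]]` modulo `t ^ n`.
-/

set_option autoImplicit false

universe u

namespace Pool.Agent.Results.MP_db9079_lc.PointsOnModels

open IsLocalRing Pool.Agent.N98.RW Pool.Agent.H176.DT Pool.Agent.W418.LU2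

/-- The field `K` is existentially closed in its extension field `F`: every finite system of
polynomial equations over `K` which has a solution in `F` has a solution in `K`. (Inequations
`g ≠ 0` can be written as equations `w * g = 1`.) -/
def ExistentiallyClosed (K F : Type u) [Field K] [Field F] [Algebra K F] : Prop :=
  ∀ (n : ℕ) (S : Set (MvPolynomial (Fin n) K)), S.Finite → ∀ a : Fin n → F,
    (∀ f ∈ S, MvPolynomial.aeval a f = 0) → ∃ b : Fin n → K, ∀ f ∈ S, MvPolynomial.aeval b f = 0

/-- The coordinate ring `O[f 1 ^ ε 1, ..., f s ^ ε s]`, `ε j = 1` or `-1`, of a chart of the closure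
over `O` of the point `(f 1, ..., f s)` in the product of `s` projective lines. -/
def chart (O : Type u) {F : Type u} [CommRing O] [Field F] [Algebra O F] {s : ℕ}
    (f : Fin s → F) (ε : Fin s → ℤˣ) : Subring F :=
  Subring.closure (Set.range (algebraMap O F) ∪ Set.range fun j => f j ^ (ε j : ℤ))

/-- The closure over `O` of the point `(f 1, ..., f s)` in the product of `s` projective lines has
a point with values in `O ⧸ 𝔪 ^ n`: there is a homomorphism over `O` from the coordinate ring of
some chart to `O ⧸ 𝔪 ^ n`. -/
def HasPoint (O : Type u) {F : Type u} [CommRing O] [IsLocalRing O] [Field F] [Algebra O F]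
    {s : ℕ} (f : Fin s → F) (n : ℕ) : Prop :=
  ∃ (ε : Fin s → ℤˣ) (φ : chart O f ε →+* O ⧸ maximalIdeal O ^ n),
    ∀ (a : O) (h : algebraMap O F a ∈ chart O f ε), φ ⟨algebraMap O F a, h⟩ =
      Ideal.Quotient.mk _ a

/-- The values at the point `x` of the polynomials over `K` of total degree at most `t`. -/
noncomputable def values (K : Type u) {F : Type u} [Field K] [Field F] [Algebra K F] {N : ℕ}
    (x : Fin N → F) (t : ℕ) : Submodule K F :=
  (MvPolynomial.restrictTotalDegree (Fin N) K t).map
    (MvPolynomial.aeval x : MvPolynomial (Fin N) K →ₐ[K] F).toLinearMap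

/-- The variety in the affine space over `K` with the generic point `x` (the zeros of the
polynomials which vanish at `x`), whose function field is `F`, has dimension `r` and degree at
most `δ`: its Hilbert function, the dimension of the space of the polynomial functions of degree
at most `t` on the variety, is at most `δ * t ^ r / r! + O (t ^ (r - 1))`. -/
def DegreeAtMost (K : Type u) {F : Type u} [Field K] [Field F] [Algebra K F] {N : ℕ}
    (x : Fin N → F) (r δ : ℕ) : Prop :=
  IntermediateField.adjoin K (Set.range x) = ⊤ ∧ Algebra.trdeg K F = r ∧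
    ∃ C : ℕ, ∀ t : ℕ, r.factorial * Module.finrank K (values K x t) ≤ δ * (t + C) ^ r

/-- Let `O` be a complete discrete valuation ring with finite residue field, for example
`F_q[[t]]`, and `K` its fraction field. Let `F` be the function field of an affine variety over `K`
of dimension `r` and degree at most `δ`, such that no prime number `≤ δ ^ (2 ^ r)` is zero in `K`.
Then `K` is existentially closed in `F` if and only if, for all nonzero `f 1, ..., f s` in `F` and
all `n`, the closure over `O` of the point `(f 1, ..., f s)` in the product of `s` projective lines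
has a point with values in the finite ring `O ⧸ 𝔪 ^ n`. -/
theorem result {O K F : Type u} [CommRing O] [IsDomain O] [IsDiscreteValuationRing O]
    [Finite (ResidueField O)] [IsAdicComplete (maximalIdeal O) O] [Field K] [Algebra O K]
    [IsFractionRing O K] [Field F] [Algebra O F] [Algebra K F] [IsScalarTower O K F] (N r δ : ℕ)
    (x : Fin N → F) (hx : DegreeAtMost K x r δ)
    (hp : ∀ p : ℕ, p.Prime → p ≤ δ ^ 2 ^ r → (p : K) ≠ 0) :
    ExistentiallyClosed K F ↔
      ∀ (s : ℕ) (f : Fin s → F), (∀ j, f j ≠ 0) → ∀ n : ℕ, HasPoint O f n := by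
  refine ⟨fun H s f hf n => Pool.Agent.N102.CP.hasPoint_of_ec H s f hf n, fun H => ?_⟩
  obtain ⟨B, Φ, hΦ, hB⟩ := Pool.Agent.N102.CP.exists_place H
  obtain ⟨V, hKV, hV⟩ := Pool.Agent.N102.CP.exists_rational (K := K) B Φ hΦ hB
  have hinf : Infinite K := by
    have h1 : Infinite O := by
      by_contra h
      rw [not_infinite_iff_finite] at h
      exact IsDiscreteValuationRing.not_isField O (Finite.isField_of_domain O)
    exact Infinite.of_injective _ (IsFractionRing.injective O K)
  obtain ⟨htop, htr, C, hC⟩ := hx
  have hpV : ∀ q : ℕ, q.Prime → q ≤ δ ^ 2 ^ r → V.valuation (q : F) = 1 := by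
    intro q hq hle
    have h0 := hp q hq hle
    have h1 : V.valuation (q : F) ≤ 1 := by
      rw [ValuationSubring.valuation_le_one_iff]
      exact natCast_mem V q
    have h2 : V.valuation ((q : F)⁻¹) ≤ 1 := by
      rw [ValuationSubring.valuation_le_one_iff, ← map_natCast (algebraMap K F) q, ← map_inv₀]
      exact hKV _
    have h3 : V.valuation (q : F) ≠ 0 := by
      rw [Ne, map_eq_zero, ← map_natCast (algebraMap K F) q, map_eq_zero]
      exact h0
    rw [map_inv₀, inv_le_one₀ (zero_lt_iff.2 h3)] at h2
    exact le_antisymm h1 h2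
  have hlo : lo (V.comap (algebraMap K F)).toSubring (⊤ : Subring K) = ⊤ := by
    rw [eq_top_iff]
    intro a _
    exact ⟨a, trivial, 1, trivial, one_ne_zero, by rw [inv_one]; exact one_mem _, by simp⟩
  let e : K ≃+* lo (V.comap (algebraMap K F)).toSubring (⊤ : Subring K) :=
    Subring.topEquiv.symm.trans (RingEquiv.subringCongr hlo.symm)
  have hreg : IsRegularLocalRing (lo (V.comap (algebraMap K F)).toSubring (⊤ : Subring K)) :=
    IsRegularLocalRing.of_ringEquiv e
  have hfr : ∀ z : K, ∃ a ∈ (⊤ : Subring K), ∃ b ∈ (⊤ : Subring K), b ≠ 0 ∧ z = a * b⁻¹ :=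
    fun z => ⟨z, trivial, 1, trivial, one_ne_zero, by simp⟩
  have hF : HasF (AdlS (V.comap (algebraMap K F)) ⊤)
      ({V.comap (algebraMap K F)} : Set (ValuationSubring K)) := by
    refine hasF_dim_le_one _ _ (fun a _ => hKV a) hfr ?_
    rw [← ringKrullDim_eq_of_ringEquiv e, ringKrullDim_eq_zero_of_field]
    exact zero_le_one
  obtain ⟨A, G, T, n, X, hG, hA, hSt, hRA, hfrA⟩ := Pool.Agent.N102.CP.t_bdf N r δ x htop htr C hC
    V hpV ⊤ hfr (fun a _ => hKV a) hF
  exact Pool.Agent.N102.CP.ec_stage Pool.Agent.N286.CP.t_fix Pool.Agent.N717.CP.t_alg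
    Pool.Agent.N37.EC.t_dvr Pool.Agent.N765.EC.t_quot (O := O) V hKV hV A G T X hG hA hSt hRA hfrA

end Pool.Agent.Results.MP_db9079_lc.PointsOnModels
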